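import Pool.Agent.Y496.SD.C5
import Pool.Agent.Y899.SD.A6

set_option autoImplicit false

/-! # (C5b) expected contribution of the accidental relations -/

namespace Pool.Agent.Y496.SD

open Finset Pool.Agent.H470D4 Pool.Agent.Y258
open Pool.Agent.H935R2.PS (La uu nn dl mx Suit)

theorem c5b_of (h5 : St_C5) (h6a : St_A6a) (h6b : St_A6b) : St_C5b := by
  intro n
  obtain ⟨Ca, hCa0, hCa⟩ := h6a (n + 3)
  obtain ⟨Cb, hCb0, hCb⟩ := h6b (n + 3) (by omega)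
  refine ⟨⌈4 * 2 ^ (n + 2) * Ca * Cb⌉₊, ?_⟩
  intro q _ h8 M B c hc Al hB K0 r l l' hW hWr hD' ω₀
  classical
  have hq : (0:ℝ) < q := by exact_mod_cast (by omega : 0 < q)
  have hq1 : (1:ℝ) ≤ q := by exact_mod_cast (by omega : 1 ≤ q)
  set D' := dm M B l' r with hD'def
  set e := dm M B (mxv l l') r with he
  have heD : e ≤ D' := by
    rw [he, hD'def]
    unfold dm
    have : ∑ a, l' a ≤ ∑ a, mxv l l' a := Finset.sum_le_sum fun a _ => le_max_right _ _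
    omega
  have hcard : Fintype.card (Option (Fin (n+2))) = n + 3 := by
    rw [Fintype.card_option, Fintype.card_fin]
  set HH : Finset (Option (Fin (n+2)) → ZMod q) := univ.filter (fun H => H none ≠ 0) with hHH
  set HB : Finset (Option (Fin (n+2)) → ZMod q) :=
    univ.filter (fun H' => H' none ≠ 0 ∧ Bd D' K0 H') with hHB
  -- each term
  have hterm : ∀ H H' : Option (Fin (n+2)) → ZMod q,
      EE Al 0 (r * M) (fun ω => ii (OO l l' H H' ≠ 0 ∧ OR c ω (mxv l l') r (OO l l' H H')) *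
        (wm H * (q:ℝ) ^ e / (q:ℝ) ^ D')) ω₀ ≤ 4 * 2 ^ (n + 2) * wm H / (q:ℝ) ^ D' := by
    intro H H'
    have hwm := wm_nonneg H
    have h0 : 0 ≤ wm H * (q:ℝ) ^ e / (q:ℝ) ^ D' := by positivity
    have e1 : (fun ω : Pth q B => ii (OO l l' H H' ≠ 0 ∧ OR c ω (mxv l l') r (OO l l' H H')) *
        (wm H * (q:ℝ) ^ e / (q:ℝ) ^ D')) = fun ω => (wm H * (q:ℝ) ^ e / (q:ℝ) ^ D') *
          ii (OO l l' H H' ≠ 0 ∧ OR c ω (mxv l l') r (OO l l' H H')) := by
      funext ω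
      rw [mul_comm]
    rw [e1, EE_const_mul]
    by_cases hOO : OO l l' H H' = 0
    · have h1 : EE Al 0 (r * M) (fun ω : Pth q B =>
          ii (OO l l' H H' ≠ 0 ∧ OR c ω (mxv l l') r (OO l l' H H'))) ω₀ ≤ 0 := by
        refine (EE_mono Al 0 (r * M) (g := fun _ => (0:ℝ)) fun ω _ => ?_).trans (le_of_eq ?_)
        · rw [ii_false (fun h => h.1 hOO)]
        · exact EE_dep Al (Al_ne (by omega) Al hB) 0 (r * M) (g := fun _ => (0:ℝ))
            (fun _ _ _ => rfl) ω₀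
      have h2 := mul_le_mul_of_nonneg_left h1 h0
      rw [mul_zero] at h2
      refine h2.trans ?_
      positivity
    · have h1 : EE Al 0 (r * M) (fun ω : Pth q B =>
          ii (OO l l' H H' ≠ 0 ∧ OR c ω (mxv l l') r (OO l l' H H'))) ω₀ ≤
          4 * (2 / (q:ℝ)) ^ e := by
        refine (EE_mono Al 0 (r * M) (g := fun ω : Pth q B =>
          ii (OR c ω (mxv l l') r (OO l l' H H'))) fun ω _ => ii_mono (fun h => h.2)).trans ?_
        exact h5 n q h8 M B c hc Al hB (mxv l l') r (OO l l' H H') hOO hW hWr ω₀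
      calc (wm H * (q:ℝ) ^ e / (q:ℝ) ^ D') * EE Al 0 (r * M) (fun ω : Pth q B =>
          ii (OO l l' H H' ≠ 0 ∧ OR c ω (mxv l l') r (OO l l' H H'))) ω₀
          ≤ (wm H * (q:ℝ) ^ e / (q:ℝ) ^ D') * (4 * (2 / (q:ℝ)) ^ e) :=
            mul_le_mul_of_nonneg_left h1 h0
        _ = 4 * 2 ^ e * wm H / (q:ℝ) ^ D' := by
            rw [div_pow]
            field_simp
        _ ≤ 4 * 2 ^ (n + 2) * wm H / (q:ℝ) ^ D' := by
            have : (2:ℝ) ^ e ≤ 2 ^ (n + 2) :=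
              pow_le_pow_right₀ (by norm_num) (heD.trans hD')
            gcongr
  -- the sum
  have hPP : EE Al 0 (r * M) (fun ω => PP c K0 ω r l l') ω₀ ≤
      ∑ H ∈ HH, ∑ H' ∈ HB, 4 * 2 ^ (n + 2) * wm H / (q:ℝ) ^ D' := by
    unfold PP
    rw [EE_sum]
    refine Finset.sum_le_sum fun H _ => ?_
    rw [EE_sum]
    exact Finset.sum_le_sum fun H' _ => hterm H H'
  refine hPP.trans ?_
  have hA := hCa q (by omega) (Option (Fin (n+2))) hcard
  have hBc := hCb q (by omega) (Option (Fin (n+2))) hcard D' K0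
  have hwmle : ∑ H ∈ HH, wm H ≤ Ca * (La q : ℝ) ^ (n + 3) :=
    (Finset.sum_le_sum_of_subset_of_nonneg (Finset.subset_univ _)
      (fun H _ _ => wm_nonneg H)).trans hA
  have hHBle : ((HB.card : ℕ) : ℝ) ≤ Cb * (La q : ℝ) ^ (n + 2) * 2 ^ (D' * La q) / 2 ^ K0 := by
    refine le_trans ?_ hBc
    exact_mod_cast Finset.card_le_card (by
      intro H' hH'
      rw [hHB, mem_filter] at hH'
      exact mem_filter.2 ⟨mem_univ _, hH'.2.2⟩)
  have h2La : (2:ℝ) ^ (D' * La q) ≤ (q:ℝ) ^ D' := by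
    rw [mul_comm, pow_mul]
    apply pow_le_pow_left₀ (by positivity)
    have : 2 ^ La q ≤ q := Nat.pow_log_le_self 2 (by omega)
    exact_mod_cast this
  have hsum0 : 0 ≤ ∑ H ∈ HH, wm H := Finset.sum_nonneg fun H _ => wm_nonneg H
  calc ∑ H ∈ HH, ∑ H' ∈ HB, 4 * 2 ^ (n + 2) * wm H / (q:ℝ) ^ D'
      = 4 * 2 ^ (n + 2) * (∑ H ∈ HH, wm H) * (HB.card : ℝ) / (q:ℝ) ^ D' := by
        simp only [Finset.sum_const, nsmul_eq_mul]
        rw [Finset.mul_sum, Finset.sum_mul, Finset.sum_div]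
        refine Finset.sum_congr rfl fun H _ => ?_
        ring
    _ ≤ 4 * 2 ^ (n + 2) * (Ca * (La q : ℝ) ^ (n + 3)) *
          (Cb * (La q : ℝ) ^ (n + 2) * 2 ^ (D' * La q) / 2 ^ K0) / (q:ℝ) ^ D' := by
        gcongr
    _ ≤ 4 * 2 ^ (n + 2) * (Ca * (La q : ℝ) ^ (n + 3)) *
          (Cb * (La q : ℝ) ^ (n + 2) * (q:ℝ) ^ D' / 2 ^ K0) / (q:ℝ) ^ D' := by
        gcongr
    _ = (4 * 2 ^ (n + 2) * Ca * Cb) * (La q : ℝ) ^ (2 * n + 5) / 2 ^ K0 := by
        have e2 : (La q : ℝ) ^ (2 * n + 5) = (La q : ℝ) ^ (n + 3) * (La q : ℝ) ^ (n + 2) := by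
          rw [← pow_add]
          congr 1
          omega
        rw [e2]
        field_simp
    _ ≤ (⌈4 * 2 ^ (n + 2) * Ca * Cb⌉₊ : ℝ) * (La q : ℝ) ^ (2 * n + 5) / 2 ^ K0 := by
        have := Nat.le_ceil (4 * 2 ^ (n + 2) * Ca * Cb)
        gcongr

theorem c5b : St_C5b := c5b_of c5 Pool.Agent.Y899.SD.A6a Pool.Agent.Y899.SD.A6b

end Pool.Agent.Y496.SD
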