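import Pool.Agent.Y258.SD.CStmts2

set_option autoImplicit false

/-!
# Parameter choice (job Num of helper258)
-/

namespace Pool.Agent.Y496.SD.Num

open Finset Pool.Agent.H470D4 Pool.Agent.Y258
open Pool.Agent.H935R2.PS (La uu nn dl mx Suit)

lemma num_real (n e C' : ℕ) (L u K C : ℝ) (hL : 1 ≤ L) (hu : 1 ≤ u) (he : C' + 3 ≤ e)
    (h2 : 2 ≤ C') (hC : 0 ≤ C) (m : ℝ) (hm : m = L ^ (e + 2)) (hK : K ≤ 2 * m ^ n * L ^ C')
    (θ : ℝ) (hθ : θ = 1 / (m ^ (n + 1) * L ^ n)) :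
    C * (m ^ (n + 2) * L ^ (n + 1) * u ^ 2 + m ^ (n + 1) * L ^ e * L ^ (n + 3) +
      θ * (m * L ^ e * L ^ (2 * n + 6) * ((L ^ 2) ^ 2 * m ^ (2 * n) + L ^ 2 * m ^ n * K) + 1) +
      m * L / θ) ≤ 7 * C * m ^ (n + 2) * L ^ (n + 1) * u ^ 2 := by
  have hL0 : 0 < L := by linarith
  have hm1 : 1 ≤ m := by rw [hm]; exact one_le_pow₀ hL
  have hm0 : 0 < m := by linarith
  set X : ℝ := m ^ (n + 2) * L ^ (n + 1) with hX
  have hX1 : 1 ≤ X := by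
    rw [hX]; exact one_le_mul_of_one_le_of_one_le (one_le_pow₀ hm1) (one_le_pow₀ hL)
  have hu2 : 1 ≤ u ^ 2 := one_le_pow₀ hu
  have hXu : X ≤ X * u ^ 2 := by nlinarith
  have hme : m = L ^ e * L ^ 2 := by rw [hm, pow_add]
  -- second term
  have t2 : m ^ (n + 1) * L ^ e * L ^ (n + 3) = X := by
    rw [hX]
    calc m ^ (n + 1) * L ^ e * L ^ (n + 3) = m ^ (n + 1) * (L ^ e * L ^ 2) * L ^ (n + 1) := by ring
      _ = m ^ (n + 1) * m * L ^ (n + 1) := by rw [← hme]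
      _ = _ := by ring
  -- fourth term
  have hθ0 : 0 < θ := by rw [hθ]; positivity
  have t4 : m * L / θ = X := by
    rw [hθ, hX]; field_simp; ring
  have hθm : θ * (m ^ (n + 1) * L ^ n) = 1 := by
    rw [hθ]; field_simp
  have hθ1 : θ ≤ 1 := by
    rw [hθ, div_le_one (by positivity)]
    exact one_le_mul_of_one_le_of_one_le (one_le_pow₀ hm1) (one_le_pow₀ hL)
  -- third term
  have t3 : θ * (m * L ^ e * L ^ (2 * n + 6) * ((L ^ 2) ^ 2 * m ^ (2 * n) + L ^ 2 * m ^ n * K) + 1)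
      ≤ 4 * X := by
    have a1 : (L ^ 2) ^ 2 * m ^ (2 * n) + L ^ 2 * m ^ n * K ≤ 3 * m ^ (2 * n) * L ^ (C' + 2) := by
      have b1 : L ^ 2 * m ^ n * K ≤ L ^ 2 * m ^ n * (2 * m ^ n * L ^ C') :=
        mul_le_mul_of_nonneg_left hK (by positivity)
      have b2 : L ^ 2 * m ^ n * (2 * m ^ n * L ^ C') = 2 * m ^ (2 * n) * L ^ (C' + 2) := by ring
      have b3 : (L ^ 2) ^ 2 ≤ L ^ (C' + 2) := by
        rw [← pow_mul]; exact pow_le_pow_right₀ hL (by omega)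
      have b4 : (L ^ 2) ^ 2 * m ^ (2 * n) ≤ L ^ (C' + 2) * m ^ (2 * n) :=
        mul_le_mul_of_nonneg_right b3 (by positivity)
      nlinarith
    have a2 : m * L ^ e * L ^ (2 * n + 6) * ((L ^ 2) ^ 2 * m ^ (2 * n) + L ^ 2 * m ^ n * K) ≤
        m * L ^ e * L ^ (2 * n + 6) * (3 * m ^ (2 * n) * L ^ (C' + 2)) :=
      mul_le_mul_of_nonneg_left a1 (by positivity)
    have a3 : m * L ^ e * L ^ (2 * n + 6) * (3 * m ^ (2 * n) * L ^ (C' + 2)) =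
        (m ^ (n + 1) * L ^ n) * (3 * (m ^ n * L ^ (n + 1)) * (L ^ e * L ^ 2) * L ^ (C' + 5)) := by
      ring
    have a4 : L ^ (C' + 5) ≤ m := by
      rw [hm]; exact pow_le_pow_right₀ hL (by omega)
    have a5 : θ * (m * L ^ e * L ^ (2 * n + 6) *
        ((L ^ 2) ^ 2 * m ^ (2 * n) + L ^ 2 * m ^ n * K)) ≤ 3 * X := by
      calc _ ≤ θ * (m * L ^ e * L ^ (2 * n + 6) * (3 * m ^ (2 * n) * L ^ (C' + 2))) :=
            mul_le_mul_of_nonneg_left a2 hθ0.le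
        _ = (θ * (m ^ (n + 1) * L ^ n)) *
            (3 * (m ^ n * L ^ (n + 1)) * (L ^ e * L ^ 2) * L ^ (C' + 5)) := by rw [a3]; ring
        _ = 3 * (m ^ n * L ^ (n + 1)) * m * L ^ (C' + 5) := by rw [hθm, one_mul, ← hme]
        _ ≤ 3 * (m ^ n * L ^ (n + 1)) * m * m :=
            mul_le_mul_of_nonneg_left a4 (by positivity)
        _ = 3 * X := by rw [hX]; ring
    calc _ = θ * (m * L ^ e * L ^ (2 * n + 6) *
          ((L ^ 2) ^ 2 * m ^ (2 * n) + L ^ 2 * m ^ n * K)) + θ := by ring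
      _ ≤ 3 * X + 1 := by linarith
      _ ≤ 4 * X := by linarith
  calc _ ≤ C * (X * u ^ 2 + X + 4 * X + X) := by
        apply mul_le_mul_of_nonneg_left _ hC
        rw [t2, t4]; linarith
    _ ≤ C * (7 * (X * u ^ 2)) := mul_le_mul_of_nonneg_left (by linarith) hC
    _ = 7 * C * m ^ (n + 2) * L ^ (n + 1) * u ^ 2 := by rw [hX]; ring

/-- polynomials are eventually smaller than the exponential -/
lemma ev_pow (P : ℕ) : ∃ N : ℕ, ∀ L : ℕ, N ≤ L → L ^ P ≤ 2 ^ L := by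
  have h := (tendsto_pow_const_div_const_pow_of_one_lt P (r := (2:ℝ)) (by norm_num))
  have h1 := (h.eventually (Iio_mem_nhds (show (0:ℝ) < 1 by norm_num)))
  obtain ⟨N, hN⟩ := Filter.eventually_atTop.mp h1
  refine ⟨N, fun L hL => ?_⟩
  have h2 := hN L hL
  have h2' : ((L:ℝ) ^ P / 2 ^ L) < 1 := h2
  rw [div_lt_one (by positivity)] at h2'
  have : ((L ^ P : ℕ) : ℝ) < ((2 ^ L : ℕ) : ℝ) := by push_cast; exact h2'
  exact_mod_cast this.le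

/-- the arithmetic of the parameters -/
lemma facts (n e C C' N1 L u q : ℕ) (hC' : C' = 2 * C + n + 8) (hLN : N1 ≤ L) (h2 : 2 ≤ N1)
    (hN1 : C * 2 ^ (2 * n + 6) ≤ N1) (hLq : 2 ^ L ≤ q)
    (hLp : L ^ ((e + 2) * (2 * n + 6) + C' + 1) ≤ 2 ^ L) (hu : 2 ^ u ≤ 2 * L) :
    ∃ K0 : ℕ, C * u ≤ K0 ∧ K0 ≤ L ∧ C * (L ^ 2 * (L ^ e * L ^ 2 + 1) ^ n * L ^ (n + 4)) ≤ 2 ^ K0 ∧
      C * (L ^ e * L ^ 2 + 1) ^ (2 * n + 6) ≤ q ∧ 2 ^ K0 ≤ 2 * ((L ^ (e + 2)) ^ n * L ^ C') := by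
  have hL2 : 2 ≤ L := by omega
  have hCL : C * 2 ^ (2 * n + 6) ≤ L := by omega
  have hm : L ^ e * L ^ 2 = L ^ (e + 2) := (pow_add L e 2).symm
  have hmpos : 1 ≤ L ^ (e + 2) := Nat.one_le_pow _ _ (by omega)
  set x : ℕ := (L ^ (e + 2)) ^ n * L ^ C' with hx
  have hx1 : 1 < x := by
    have h1 : 1 ≤ (L ^ (e + 2)) ^ n := Nat.one_le_pow _ _ hmpos
    have h2 : 1 < L ^ C' := Nat.one_lt_pow (by omega) (by omega)
    calc 1 < L ^ C' := h2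
      _ = 1 * L ^ C' := (one_mul _).symm
      _ ≤ _ := Nat.mul_le_mul_right _ h1
  set K0 : ℕ := Nat.clog 2 x with hK0
  have hK0l : x ≤ 2 ^ K0 := Nat.le_pow_clog (by norm_num) x
  have hK0u : 2 ^ K0 ≤ 2 * x := by
    have h1 := Nat.pow_pred_clog_lt_self (b := 2) (by norm_num) hx1
    have h2 : 0 < K0 := Nat.clog_pos (by norm_num) hx1
    have h3 : 2 ^ K0 = 2 * 2 ^ (K0 - 1) := by
      rw [← pow_succ']; congr 1; omega
    rw [h3]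
    have : 2 ^ (K0 - 1) < x := h1
    omega
  -- (a)
  have ca : C * u ≤ K0 := by
    have h1 : 2 ^ (C * u) ≤ 2 ^ K0 := by
      calc 2 ^ (C * u) = (2 ^ u) ^ C := by rw [mul_comm, pow_mul]
        _ ≤ (2 * L) ^ C := Nat.pow_le_pow_left hu C
        _ ≤ (L * L) ^ C := Nat.pow_le_pow_left (Nat.mul_le_mul_right _ hL2) C
        _ = L ^ (2 * C) := by rw [← pow_two, ← pow_mul]
        _ ≤ L ^ C' := Nat.pow_le_pow_right (by omega) (by omega)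
        _ = 1 * L ^ C' := (one_mul _).symm
        _ ≤ x := Nat.mul_le_mul_right _ (Nat.one_le_pow _ _ hmpos)
        _ ≤ 2 ^ K0 := hK0l
    exact (Nat.pow_le_pow_iff_right (by norm_num)).mp h1
  -- (b)
  have cb : K0 ≤ L := by
    apply Nat.clog_le_of_le_pow
    calc x = L ^ ((e + 2) * n + C') := by rw [hx, ← pow_mul, ← pow_add]
      _ ≤ L ^ ((e + 2) * (2 * n + 6) + C' + 1) := by
        apply Nat.pow_le_pow_right (by omega)
        have : (e + 2) * n ≤ (e + 2) * (2 * n + 6) := Nat.mul_le_mul_left _ (by omega)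
        omega
      _ ≤ 2 ^ L := hLp
  have hm2 : L ^ (e + 2) + 1 ≤ 2 * L ^ (e + 2) := by omega
  -- (c)
  have cc : C * (L ^ 2 * (L ^ e * L ^ 2 + 1) ^ n * L ^ (n + 4)) ≤ 2 ^ K0 := by
    rw [hm]
    calc C * (L ^ 2 * (L ^ (e + 2) + 1) ^ n * L ^ (n + 4))
        ≤ C * (L ^ 2 * (2 * L ^ (e + 2)) ^ n * L ^ (n + 4)) := by gcongr
      _ = (C * 2 ^ n) * (L ^ (e + 2)) ^ n * L ^ (n + 6) := by ring
      _ ≤ L * (L ^ (e + 2)) ^ n * L ^ (n + 6) := by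
        gcongr
        calc C * 2 ^ n ≤ C * 2 ^ (2 * n + 6) := by
              apply Nat.mul_le_mul_left; exact Nat.pow_le_pow_right (by norm_num) (by omega)
          _ ≤ L := hCL
      _ = (L ^ (e + 2)) ^ n * L ^ (n + 7) := by ring
      _ ≤ (L ^ (e + 2)) ^ n * L ^ C' := by
        apply Nat.mul_le_mul_left; exact Nat.pow_le_pow_right (by omega) (by omega)
      _ ≤ 2 ^ K0 := hK0l
  -- (d)
  have cd : C * (L ^ e * L ^ 2 + 1) ^ (2 * n + 6) ≤ q := by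
    rw [hm]
    calc C * (L ^ (e + 2) + 1) ^ (2 * n + 6)
        ≤ C * (2 * L ^ (e + 2)) ^ (2 * n + 6) := by gcongr
      _ = (C * 2 ^ (2 * n + 6)) * (L ^ (e + 2)) ^ (2 * n + 6) := by rw [mul_pow]; ring
      _ ≤ L * (L ^ (e + 2)) ^ (2 * n + 6) := by gcongr
      _ = L ^ ((e + 2) * (2 * n + 6) + 1) := by rw [← pow_mul, pow_succ, mul_comm]
      _ ≤ L ^ ((e + 2) * (2 * n + 6) + C' + 1) := Nat.pow_le_pow_right (by omega) (by omega)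
      _ ≤ 2 ^ L := hLp
      _ ≤ q := hLq
  exact ⟨K0, ca, cb, cc, cd, hK0u⟩

theorem num (h : St_C18) : St_Core := by
  intro n
  obtain ⟨C, hC⟩ := h n
  obtain ⟨C', hC'⟩ : ∃ C' : ℕ, C' = 2 * C + n + 8 := ⟨_, rfl⟩
  refine ⟨C' + 3, fun e he => ?_⟩
  obtain ⟨N, hN⟩ := ev_pow ((e + 2) * (2 * n + 6) + C' + 1)
  obtain ⟨N1, hN1⟩ : ∃ N1 : ℕ, N1 = N + C * 2 ^ (2 * n + 6) + 2 := ⟨_, rfl⟩
  refine ⟨7 * C + 2 ^ N1, fun q hq hs hCq c hc => ?_⟩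
  have hq0 : q ≠ 0 := hq.out.ne_zero
  have hLN : N1 ≤ La q := by
    unfold La
    apply Nat.le_log_of_pow_le (by norm_num)
    omega
  have hL2 : 2 ≤ La q := by omega
  have hLq : 2 ^ La q ≤ q := Nat.pow_log_le_self 2 hq0
  have hCq1 : C ≤ q := by
    have : 0 ≤ 2 ^ N1 := Nat.zero_le _
    omega
  have hu : 2 ^ uu q ≤ 2 * La q := by
    unfold uu
    rw [pow_succ, mul_comm]
    exact Nat.mul_le_mul_left 2 (Nat.pow_log_le_self 2 (by omega))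
  obtain ⟨K0, ca, cb, cc, cd, hK0u⟩ := facts n e C C' N1 (La q) (uu q) q hC' hLN (by omega)
    (by omega) hLq (hN (La q) (by omega)) hu
  have hLr : (1:ℝ) ≤ (La q:ℝ) := by exact_mod_cast (by omega : 1 ≤ La q)
  have hL0r : (0:ℝ) < (La q:ℝ) := by linarith
  obtain ⟨θ, hθ⟩ : ∃ θ : ℝ, θ = 1 / (((La q:ℝ) ^ (e + 2)) ^ (n + 1) * (La q:ℝ) ^ n) := ⟨_, rfl⟩
  have hθ0 : 0 < θ := by rw [hθ]; positivity
  have hLpos : 0 < La q := by omega
  obtain ⟨ω, hω, hb⟩ := hC q hs hCq1 (La q ^ e) (La q ^ 2) c hc (Nat.pow_pos hLpos)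
    (Nat.pow_pos hLpos) K0 ca cb cc cd θ hθ0
  refine ⟨ω, hω, fun X Y hX hY => ?_⟩
  refine (hb X Y hX hY).trans ?_
  have hu1 : (1:ℝ) ≤ (uu q : ℝ) := by
    have : 1 ≤ uu q := by unfold uu; omega
    exact_mod_cast this
  have hKr : ((2:ℝ) ^ K0) ≤ 2 * ((La q:ℝ) ^ (e + 2)) ^ n * (La q:ℝ) ^ C' := by
    have : ((2 ^ K0 : ℕ) : ℝ) ≤ ((2 * ((La q ^ (e + 2)) ^ n * La q ^ C') : ℕ) : ℝ) := by
      exact_mod_cast hK0u
    push_cast at this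
    linarith
  have key := num_real n e C' (La q:ℝ) (uu q : ℝ) ((2:ℝ) ^ K0) (C:ℝ) hLr hu1 he (by omega)
    (by positivity) ((La q:ℝ) ^ (e + 2)) rfl hKr θ hθ
  have hcast : ((La q ^ e * La q ^ 2 : ℕ) : ℝ) = (La q:ℝ) ^ (e + 2) := by
    rw [← pow_add]; push_cast; rfl
  have hcast1 : ((La q ^ e : ℕ) : ℝ) = (La q:ℝ) ^ e := by push_cast; rfl
  have hcast2 : ((La q ^ 2 : ℕ) : ℝ) = (La q:ℝ) ^ 2 := by push_cast; rfl
  rw [hcast, hcast1, hcast2]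
  refine key.trans ?_
  have hpos : 0 ≤ ((La q:ℝ) ^ (e + 2)) ^ (n + 2) * (La q:ℝ) ^ (n + 1) * (uu q : ℝ) ^ 2 := by
    positivity
  have h2N : (0:ℝ) ≤ 2 ^ N1 := by positivity
  push_cast
  nlinarith [mul_nonneg h2N hpos]

end Pool.Agent.Y496.SD.Num
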