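import Pool.Agent.Y258.SD.U

set_option autoImplicit false

/-! # (C5) probability of an old relation -/

namespace Pool.Agent.Y496.SD

open Finset Pool.Agent.H470D4 Pool.Agent.Y258
open Pool.Agent.H935R2.PS (La uu nn dl mx Suit)

section
variable {q M B n : ℕ} [Fact q.Prime]

/-- the functional of an old relation -/
noncomputable def fO (c : Flg q M B n) (W : Fin (n+2) → ℕ) (O : Fin (n+2) → ZMod q) :
    Vec q M B →ₗ[ZMod q] ZMod q := ∑ a, O a • c a (W a)

lemma fO_apply (c : Flg q M B n) (W : Fin (n+2) → ℕ) (O : Fin (n+2) → ZMod q) (v : Vec q M B) :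
    fO c W O v = ∑ a, O a * c a (W a) v := by
  unfold fO
  simp [LinearMap.sum_apply]

/-- at time `0` there is no relation -/
lemma not_OR_zero {c : Flg q M B n} (hc : IsFlags c) (ω : Pth q B) {W : Fin (n+2) → ℕ}
    {O : Fin (n+2) → ZMod q} (hO : O ≠ 0) (hW : ∑ a, W a + (n + 2) ≤ M * B) : ¬ OR c ω W 0 O := by
  classical
  intro h
  obtain ⟨a0, ha0⟩ := Function.ne_iff.1 hO
  simp only [Pi.zero_apply] at ha0
  set W' : Fin (n+2) → ℕ := fun a => if a = a0 then W a else W a + 1 with hW'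
  set W'' : Fin (n+2) → ℕ := fun a => W a + 1 with hW''
  have hle : AA c ω W' 0 ≤ AA c ω W'' 0 := by
    intro v hv
    have hvW : v ∈ AA c ω W 0 := AA_mono c ω (fun a => by
      simp only [hW']; split_ifs <;> omega) le_rfl hv
    have h1 := h v hvW
    rw [mem_AA]
    refine ⟨fun a j hj => ?_, fun j hj => absurd hj (Nat.not_lt_zero _)⟩
    by_cases ha : a = a0
    · subst ha
      rcases Nat.lt_succ_iff_lt_or_eq.1 (show j < W a + 1 from hj) with h2 | h2
      · exact hvW.1 a j h2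
      · subst h2
        rw [Finset.sum_eq_single a] at h1
        · exact (mul_eq_zero.1 h1).resolve_left ha0
        · intro b _ hb
          have h3 : c b (W b) v = 0 := hv.1 b (W b) (by
            simp only [hW']
            rw [if_neg hb]
            omega)
          rw [h3, mul_zero]
        · intro h3
          exact absurd (mem_univ _) h3
    · exact hv.1 a j (by simp only [hW']; rw [if_neg ha]; exact hj)
  have h1 := Submodule.finrank_mono hle
  rw [hc.mds, hc.mds] at h1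
  have e1 : ∑ a, W'' a = ∑ a, W a + (n + 2) := by
    simp only [hW'']
    rw [Finset.sum_add_distrib]
    simp
  have e2 : ∑ a, W' a + 1 = ∑ a, W a + (n + 2) := by
    have h3 : ∀ a, W'' a = W' a + (if a = a0 then 1 else 0) := by
      intro a
      simp only [hW', hW'']
      split_ifs <;> rfl
    rw [← e1, Finset.sum_congr rfl (fun a _ => h3 a), Finset.sum_add_distrib]
    simp
  omega

/-- an old relation comes from a row -/
lemma OR_row {c : Flg q M B n} (hc : IsFlags c) (ω : Pth q B) {W : Fin (n+2) → ℕ}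
    {O : Fin (n+2) → ZMod q} (hO : O ≠ 0) (hW : ∑ a, W a + (n + 2) ≤ M * B) (r : ℕ)
    (h : OR c ω W r O) : ∃ J < r, ∃ s : ZMod q, s ≠ 0 ∧
      ∀ v ∈ AA c ω W J, row M ω J v = (s • fO c W O) v := by
  induction r with
  | zero => exact absurd h (not_OR_zero hc ω hO hW)
  | succ r ih =>
    by_cases h1 : OR c ω W r O
    · obtain ⟨J, hJ, s, hs⟩ := ih h1
      exact ⟨J, by omega, s, hs⟩
    · refine ⟨r, Nat.lt_succ_self r, ?_⟩
      unfold OR at h h1
      push Not at h1
      obtain ⟨v0, hv0, hv0'⟩ := h1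
      rw [← fO_apply] at hv0'
      have hker : ∀ v ∈ AA c ω W r, row M ω r v = 0 → fO c W O v = 0 := by
        intro v hv h2
        rw [fO_apply]
        apply h
        rw [AA_succ]
        exact ⟨hv, h2⟩
      have hr0 : row M ω r v0 ≠ 0 := fun h2 => hv0' (hker v0 hv0 h2)
      refine ⟨row M ω r v0 * (fO c W O v0)⁻¹, mul_ne_zero hr0 (inv_ne_zero hv0'), fun v hv => ?_⟩
      have h3 := hker (row M ω r v0 • v - row M ω r v • v0)
        (Submodule.sub_mem _ (Submodule.smul_mem _ _ hv) (Submodule.smul_mem _ _ hv0))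
        (by rw [map_sub, map_smul, map_smul, smul_eq_mul, smul_eq_mul]; ring)
      rw [map_sub, map_smul, map_smul, smul_eq_mul, smul_eq_mul] at h3
      rw [LinearMap.smul_apply, smul_eq_mul]
      field_simp
      linear_combination -h3

/-- the indicator of the event of `OR_row` -/
noncomputable def gg (c : Flg q M B n) (W : Fin (n+2) → ℕ) (J : ℕ)
    (φ : Vec q M B →ₗ[ZMod q] ZMod q) (ω : Pth q B) : ℝ := kif M J (AA c ω W J) φ ω

lemma gg_dep (c : Flg q M B n) (W : Fin (n+2) → ℕ) (J : ℕ) (φ : Vec q M B →ₗ[ZMod q] ZMod q) :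
    DepLT ((J+1) * M) (gg c W J φ) := by
  intro ω ω' h
  unfold gg kif
  have h1 : AA c ω W J = AA c ω' W J :=
    AA_dep c W J ω ω' (h.mono (Nat.mul_le_mul_right _ (Nat.le_succ J)))
  have h2 : row M ω J = row M ω' J := row_dep (Nat.lt_succ_self J) h
  rw [h1, h2]

lemma EE_gg (h8 : 8 ≤ q) {c : Flg q M B n} (hc : IsFlags c)
    (Al : ℕ → Pth q B → Finset (Blk q B)) (hB : ∀ j ω, q ^ B ≤ 2 * (Al j ω).card)
    (W : Fin (n+2) → ℕ) {J r : ℕ} (hJ : J < r) (φ : Vec q M B →ₗ[ZMod q] ZMod q) (ω₀ : Pth q B) :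
    EE Al 0 (r * M) (gg c W J φ) ω₀ ≤ (2 / (q:ℝ)) ^ (M * B - (∑ a, W a + J)) := by
  have hne := Al_ne (by omega) Al hB
  have hq : (0:ℝ) < q := by exact_mod_cast (by omega : 0 < q)
  have h2q : 2 / (q:ℝ) ≤ 1 := by
    rw [div_le_one hq]
    exact_mod_cast (by omega : 2 ≤ q)
  rw [EE_upto Al hne (Nat.mul_le_mul_right M (show J + 1 ≤ r by omega)) (gg_dep c W J φ) ω₀]
  have e : (J+1) * M = J * M + M := by ring
  rw [e, EE_add, Nat.zero_add]
  have h1 : ∀ ω', Agr 0 ω₀ ω' → EE Al (J * M) M (gg c W J φ) ω' ≤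
      (2 / (q:ℝ)) ^ (M * B - (∑ a, W a + J)) := by
    intro ω' _
    have h2 : EE Al (J * M) M (gg c W J φ) ω' ≤ EE Al (J * M) M (kif M J (AA c ω' W J) φ) ω' := by
      refine EE_mono Al (J * M) M fun ω'' h'' => ?_
      unfold gg
      rw [show AA c ω'' W J = AA c ω' W J from (AA_dep c W J ω' ω'' h'').symm]
    refine h2.trans ((EE_row Al hB (by omega) J ω' _ φ).trans ?_)
    apply pow_le_pow_of_le_one (by positivity) h2q
    have := finrank_AA_ge c hc ω' W J
    omega
  refine (EE_mono Al 0 (J * M) h1).trans (le_of_eq ?_)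
  exact EE_dep Al hne 0 (J * M) (g := fun _ => (2 / (q:ℝ)) ^ (M * B - (∑ a, W a + J)))
    (fun _ _ _ => rfl) ω₀

lemma geo_le (h8 : 8 ≤ q) (e r : ℕ) :
    ∑ J ∈ range r, ((q:ℝ) - 1) * (2 / (q:ℝ)) ^ (e + (r - J)) ≤ 4 * (2 / (q:ℝ)) ^ e := by
  have hq8 : (8:ℝ) ≤ q := by exact_mod_cast h8
  have hq : (0:ℝ) < q := by linarith
  set x : ℝ := 2 / q with hx
  have hx0 : 0 < x := by positivity
  have hx1 : x ≤ 1 / 4 := by
    rw [hx, div_le_iff₀ hq]; linarith
  have hqx : (q:ℝ) * x = 2 := by rw [hx]; field_simp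
  have h1 : ∑ J ∈ range r, ((q:ℝ) - 1) * x ^ (e + (r - J)) =
      x ^ e * (((q:ℝ) - 1) * x) * ∑ i ∈ range r, x ^ i := by
    rw [← Finset.sum_range_reflect (fun i => x ^ i), Finset.mul_sum]
    refine Finset.sum_congr rfl fun J hJ => ?_
    rw [Finset.mem_range] at hJ
    have e1 : r - J = (r - 1 - J) + 1 := by omega
    rw [e1, pow_add, pow_succ]
    ring
  rw [h1]
  have h2 : ∑ i ∈ range r, x ^ i ≤ 2 := by
    have h3 := Summable.sum_le_tsum (range r) (fun i _ => by positivity)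
      (summable_geometric_of_lt_one hx0.le (by linarith))
    rw [tsum_geometric_of_lt_one hx0.le (by linarith)] at h3
    refine h3.trans ?_
    rw [inv_le_comm₀ (by linarith) (by norm_num)]
    linarith
  have h4 : ((q:ℝ) - 1) * x ≤ 2 := by
    have : ((q:ℝ) - 1) * x = 2 - x := by linear_combination hqx
    linarith
  have h5 : 0 ≤ ((q:ℝ) - 1) * x := by
    have : 0 ≤ (q:ℝ) - 1 := by linarith
    positivity
  have h6 : 0 ≤ ∑ i ∈ range r, x ^ i := Finset.sum_nonneg fun i _ => by positivity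
  calc x ^ e * (((q:ℝ) - 1) * x) * ∑ i ∈ range r, x ^ i
      = x ^ e * ((((q:ℝ) - 1) * x) * ∑ i ∈ range r, x ^ i) := by ring
    _ ≤ x ^ e * (2 * 2) := by
        apply mul_le_mul_of_nonneg_left _ (by positivity)
        exact mul_le_mul h4 h2 h6 (by norm_num)
    _ = 4 * x ^ e := by ring

end

theorem c5 : St_C5 := by
  intro n q _ h8 M B c hc Al hB W r O hO hW hWr ω₀
  classical
  have hq : (0:ℝ) < q := by exact_mod_cast (by omega : 0 < q)
  -- the pointwise bound
  have h1 : ∀ ω : Pth q B, ii (OR c ω W r O) ≤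
      ∑ J ∈ range r, ∑ s ∈ (univ : Finset (ZMod q)).filter (fun s => s ≠ 0),
        gg c W J (s • fO c W O) ω := by
    intro ω
    by_cases h : OR c ω W r O
    · rw [ii_true h]
      obtain ⟨J, hJ, s, hs, hrow⟩ := OR_row hc ω hO hW r h
      have e1 : gg c W J (s • fO c W O) ω = 1 := by
        unfold gg kif
        rw [if_pos hrow]
      have h2 : gg c W J (s • fO c W O) ω ≤
          ∑ s ∈ (univ : Finset (ZMod q)).filter (fun s => s ≠ 0), gg c W J (s • fO c W O) ω :=
        Finset.single_le_sum (f := fun s => gg c W J (s • fO c W O) ω)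
          (fun s _ => kif_nonneg _ _ _ _ _) (mem_filter.2 ⟨mem_univ _, hs⟩)
      have h3 := Finset.single_le_sum
        (f := fun J => ∑ s ∈ (univ : Finset (ZMod q)).filter (fun s => s ≠ 0),
          gg c W J (s • fO c W O) ω)
        (fun J _ => Finset.sum_nonneg fun s _ => kif_nonneg _ _ _ _ _) (Finset.mem_range.2 hJ)
      rw [← e1]
      exact h2.trans h3
    · rw [ii_false h]
      exact Finset.sum_nonneg fun J _ => Finset.sum_nonneg fun s _ => kif_nonneg _ _ _ _ _
  refine (EE_mono Al 0 (r * M) (fun ω _ => h1 ω)).trans ?_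
  rw [EE_sum]
  have hcard : ((univ : Finset (ZMod q)).filter (fun s => s ≠ 0)).card = q - 1 := by
    rw [Finset.filter_ne', Finset.card_erase_of_mem (mem_univ _), Finset.card_univ, ZMod.card]
  have h2 : ∀ J ∈ range r, EE Al 0 (r * M)
      (fun ω => ∑ s ∈ (univ : Finset (ZMod q)).filter (fun s => s ≠ 0),
        gg c W J (s • fO c W O) ω) ω₀ ≤
      ((q:ℝ) - 1) * (2 / (q:ℝ)) ^ (dm M B W r + (r - J)) := by
    intro J hJ
    rw [Finset.mem_range] at hJ
    rw [EE_sum]
    refine (Finset.sum_le_sum fun s _ => EE_gg h8 hc Al hB W hJ _ ω₀).trans ?_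
    rw [Finset.sum_const, hcard, nsmul_eq_mul, Nat.cast_sub (by omega), Nat.cast_one]
    have e : M * B - (∑ a, W a + J) = dm M B W r + (r - J) := by
      unfold dm
      omega
    rw [e]
  exact (Finset.sum_le_sum h2).trans (geo_le h8 _ _)

end Pool.Agent.Y496.SD
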